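import Mathlib

set_option autoImplicit false

namespace Pool.Agent.Results.MP_f2eb3d_co.WidthOne

/-- the point of `ℝ^n` given by a lattice point -/
def latt {n : ℕ} (u : Fin n → ℤ) : Fin n → ℝ := fun i => (u i : ℝ)

/-- the pairing of a dual lattice vector with a point of `ℝ^n` -/
def pair {n : ℕ} (a : Fin n → ℤ) (x : Fin n → ℝ) : ℝ := ∑ j, (a j : ℝ) * x j

/-- the adjoint polytope: points at lattice distance at least `s` from every facet -/
def adjoint {n m : ℕ} (a : Fin m → Fin n → ℤ) (b : Fin m → ℤ) (s : ℝ) : Set (Fin n → ℝ) :=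
  {x | ∀ i, s ≤ pair (a i) x - (b i : ℝ)}

/-- the `ℚ`-codegree -/
noncomputable def qcodeg {n m : ℕ} (a : Fin m → Fin n → ℤ) (b : Fin m → ℤ) : ℝ :=
  (sSup {s : ℝ | 0 < s ∧ (adjoint a b s).Nonempty})⁻¹

/-- lattice width one -/
def HasWidthOne {n : ℕ} (P : Set (Fin n → ℝ)) : Prop :=
  ∃ l : Fin n → ℤ, l ≠ 0 ∧ ∃ hi lo : ℝ,
    IsGreatest (pair l '' P) hi ∧ IsLeast (pair l '' P) lo ∧ hi - lo = 1

/-- the pairing as a linear map -/
def pairL {n : ℕ} (a : Fin n → ℤ) : (Fin n → ℝ) →ₗ[ℝ] ℝ where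
  toFun := pair a
  map_add' x y := by simp [pair, mul_add, Finset.sum_add_distrib]
  map_smul' t x := by simp [pair, Finset.mul_sum, mul_left_comm]

theorem pairL_apply {n : ℕ} (a : Fin n → ℤ) (x : Fin n → ℝ) : pairL a x = pair a x := rfl

theorem pair_latt {n : ℕ} (a v : Fin n → ℤ) : pair a (latt v) = ((∑ j, a j * v j : ℤ) : ℝ) := by
  simp [pair, latt]

theorem far_vertex {n : ℕ} (V : Finset (Fin n → ℤ)) (P : Set (Fin n → ℝ))
    (hP : P = convexHull ℝ (latt '' (V : Set (Fin n → ℤ)))) (hfull : affineSpan ℝ P = ⊤)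
    (a : Fin n → ℤ) (b : ℤ) (ha : a ≠ 0) (hval : ∀ x ∈ P, (b : ℝ) ≤ pair a x)
    (hne : ∃ x ∈ P, pair a x = b) (hw : ¬ HasWidthOne P) :
    ∃ p ∈ P, 2 ≤ pair a p - b := by
  obtain ⟨x0, hx0, hx0b⟩ := hne
  have hV : V.Nonempty := by
    rcases V.eq_empty_or_nonempty with h | h
    · rw [hP, h] at hx0
      simp at hx0
    · exact h
  obtain ⟨v, hv, hmax⟩ := V.exists_max_image (fun v => ∑ j, a j * v j) hV
  have hvP : latt v ∈ P := by
    rw [hP]
    exact subset_convexHull _ _ ⟨v, hv, rfl⟩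
  have hup : ∀ x ∈ P, pair a x ≤ pair a (latt v) := by
    have : P ⊆ {x | pairL a x ≤ pair a (latt v)} := by
      rw [hP]
      apply convexHull_min
      · rintro _ ⟨w, hw, rfl⟩
        change pair a (latt w) ≤ pair a (latt v)
        rw [pair_latt, pair_latt]
        exact_mod_cast hmax w hw
      · exact convex_halfSpace_le (pairL a).isLinear _
    exact fun x hx => this hx
  refine ⟨latt v, hvP, ?_⟩
  have h0 := hval _ hvP
  rw [pair_latt] at h0 ⊢
  have h0' : b ≤ ∑ j, a j * v j := by exact_mod_cast h0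
  have h1 : (∑ j, a j * v j) - b ≠ 1 := by
    intro h
    apply hw
    refine ⟨a, ha, pair a (latt v), b, ⟨⟨_, hvP, rfl⟩, ?_⟩, ⟨⟨_, hx0, hx0b⟩, ?_⟩, ?_⟩
    · rintro _ ⟨x, hx, rfl⟩
      exact hup x hx
    · rintro _ ⟨x, hx, rfl⟩
      exact hval x hx
    · rw [pair_latt]
      exact_mod_cast h
  have h2 : (∑ j, a j * v j) - b ≠ 0 := by
    intro h
    have hb : pair a (latt v) = b := by
      rw [pair_latt]
      have : (∑ j, a j * v j) = b := by omega
      rw [this]
    let S : AffineSubspace ℝ (Fin n → ℝ) :=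
      { carrier := {x | pairL a x = b}
        smul_vsub_vadd_mem' := by
          intro c p1 p2 p3 h1 h2 h3
          change pairL a (c • (p1 - p2) + p3) = b
          change pairL a p1 = b at h1
          change pairL a p2 = b at h2
          change pairL a p3 = b at h3
          rw [map_add, map_smul, map_sub, h1, h2, h3]
          simp }
    have hle : affineSpan ℝ P ≤ S := by
      rw [affineSpan_le]
      intro x hx
      change pair a x = b
      have := hup x hx
      have := hval x hx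
      linarith
    rw [hfull] at hle
    have e0 : pairL a 0 = b := hle (AffineSubspace.mem_top ℝ (Fin n → ℝ) 0)
    have e1 : pairL a (latt a) = b := hle (AffineSubspace.mem_top ℝ (Fin n → ℝ) (latt a))
    rw [map_zero] at e0
    rw [pairL_apply, pair_latt, ← e0] at e1
    have e2 : ∑ j, a j * a j = 0 := by exact_mod_cast e1
    rw [Finset.sum_eq_zero_iff_of_nonneg (fun j _ => mul_self_nonneg (a j))] at e2
    apply ha
    funext j
    exact mul_self_eq_zero.mp (e2 j (Finset.mem_univ j))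
  have h3 : 2 ≤ (∑ j, a j * v j) - b := by omega
  exact_mod_cast h3

theorem result (n m : ℕ) (V : Finset (Fin n → ℤ)) (P : Set (Fin n → ℝ))
    (hP : P = convexHull ℝ (latt '' (V : Set (Fin n → ℤ))))
    (hfull : affineSpan ℝ P = ⊤)
    (a : Fin m → Fin n → ℤ) (b : Fin m → ℤ)
    (hprim : ∀ i, Finset.univ.gcd (a i) = 1)
    (hdesc : P = {x | ∀ i, (b i : ℝ) ≤ pair (a i) x})
    (hfacet : ∀ i, {x ∈ P | pair (a i) x = (b i : ℝ)}.Nonempty ∧
      Module.finrank ℝ (vectorSpan ℝ {x ∈ P | pair (a i) x = (b i : ℝ)}) + 1 = n)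
    (hmu : ((n : ℝ) + 1) / 2 < qcodeg a b) :
    HasWidthOne P := by
  by_contra hw
  have hval : ∀ i, ∀ x ∈ P, (b i : ℝ) ≤ pair (a i) x := by
    intro i x hx
    rw [hdesc] at hx
    exact hx i
  have ha : ∀ i, a i ≠ 0 := by
    intro i h
    have := hprim i
    rw [h] at this
    have h2 : Finset.univ.gcd (0 : Fin n → ℤ) = 0 := Finset.gcd_eq_zero_iff.mpr (fun _ _ => rfl)
    rw [h2] at this
    exact zero_ne_one this
  have hfar : ∀ i, ∃ p ∈ P, 2 ≤ pair (a i) p - b i := fun i =>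
    far_vertex V P hP hfull (a i) (b i) (ha i) (hval i)
      (by obtain ⟨x, hx⟩ := (hfacet i).1; exact ⟨x, hx.1, hx.2⟩) hw
  choose p hpP hp using hfar
  have hn : (0 : ℝ) < (n : ℝ) + 1 := by positivity
  have hH : (⋂ i ∈ (Finset.univ : Finset (Fin m)),
      {x : Fin n → ℝ | 2 / ((n : ℝ) + 1) + b i ≤ pairL (a i) x}).Nonempty := by
    apply Convex.helly_theorem' (𝕜 := ℝ)
    · intro i _
      exact convex_halfSpace_ge (pairL (a i)).isLinear _
    · intro I _ hI
      rcases I.eq_empty_or_nonempty with h | h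
      · rw [h]
        simp
      have hk : (0 : ℝ) < I.card := by exact_mod_cast h.card_pos
      have hk' : (I.card : ℝ) ≤ (n : ℝ) + 1 := by
        rw [Module.finrank_fin_fun] at hI
        exact_mod_cast hI
      refine ⟨(I.card : ℝ)⁻¹ • ∑ j ∈ I, p j, ?_⟩
      simp only [Set.mem_iInter]
      intro i hi
      change 2 / ((n : ℝ) + 1) + b i ≤ pairL (a i) ((I.card : ℝ)⁻¹ • ∑ j ∈ I, p j)
      rw [map_smul, map_sum, smul_eq_mul]
      have h1 : 2 ≤ ∑ j ∈ I, (pairL (a i) (p j) - b i) := by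
        refine le_trans (hp i) ?_
        exact Finset.single_le_sum (f := fun j => pairL (a i) (p j) - (b i : ℝ))
          (fun j _ => sub_nonneg.mpr (hval i _ (hpP j))) hi
      rw [Finset.sum_sub_distrib, Finset.sum_const, nsmul_eq_mul] at h1
      have h2 : 2 / ((n : ℝ) + 1) ≤ 2 / (I.card : ℝ) :=
        div_le_div_of_nonneg_left (by norm_num) hk hk'
      have h3 : 2 / (I.card : ℝ) + b i ≤ (I.card : ℝ)⁻¹ * ∑ j ∈ I, pairL (a i) (p j) := by
        rw [inv_mul_eq_div, le_div_iff₀ hk, add_mul, div_mul_cancel₀ _ hk.ne']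
        linarith
      linarith
  obtain ⟨x, hx⟩ := hH
  simp only [Set.mem_iInter] at hx
  have hmem : 2 / ((n : ℝ) + 1) ∈ {s : ℝ | 0 < s ∧ (adjoint a b s).Nonempty} := by
    refine ⟨by positivity, x, fun i => ?_⟩
    have : 2 / ((n : ℝ) + 1) + b i ≤ pair (a i) x := hx i (Finset.mem_univ i)
    linarith
  unfold qcodeg at hmu
  by_cases hb : BddAbove {s : ℝ | 0 < s ∧ (adjoint a b s).Nonempty}
  · have h1 := le_csSup hb hmem
    have h2 : (0 : ℝ) < 2 / ((n : ℝ) + 1) := by positivity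
    have h3 := inv_anti₀ h2 h1
    rw [inv_div] at h3
    linarith
  · rw [Real.sSup_of_not_bddAbove hb, inv_zero] at hmu
    have : (0 : ℝ) < ((n : ℝ) + 1) / 2 := by positivity
    linarith

end Pool.Agent.Results.MP_f2eb3d_co.WidthOne
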